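import Mathlib
import Pool.Agent.Y843.HS.Top
import Pool.Agent.N792.SingT

/-!
# Narrow progressions in dense sets of arguments with prime values of `x² + x + c` (helper13)
-/

set_option autoImplicit false

namespace Pool.Agent.P8H13.QF

open Finset Filter Topology
open Pool.Agent.N792 (Vc rho fv)

/-- the roots modulo `p` -/
def Z (c : ℕ) (p : ℕ) : Finset ℕ := (range p).filter (fun r : ℕ => (p : ℤ) ∣ fv 1 1 (c : ℤ) r)

theorem card_Z (c p : ℕ) : (Z c p).card = rho 1 1 (c : ℤ) p := rfl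

theorem fv_eq (c n : ℕ) : fv 1 1 (c : ℤ) n = ((n ^ 2 + n + c : ℕ) : ℤ) := by
  unfold fv
  push_cast
  ring

theorem Z_le (c p : ℕ) (hc : Odd c) (hp : p.Prime) : (Z c p).card ≤ 2 ∧ (Z c p).card < p := by
  rcases eq_or_ne p 2 with rfl | h2
  · have h : (Z c 2).card = 0 := by
      rw [card_eq_zero]
      unfold Z
      rw [filter_eq_empty_iff]
      intro r hr hd
      rw [fv_eq] at hd
      have h1 : 2 ∣ r ^ 2 + r + c := by exact_mod_cast hd
      obtain ⟨k, hk⟩ := hc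
      rw [mem_range] at hr
      interval_cases r <;> omega
    rw [h]
    omega
  · have h3 : 3 ≤ p := by
      have := hp.two_le
      omega
    have hpa : ¬ (p : ℤ) ∣ 1 := by
      intro h4
      have h5 : (p : ℤ).natAbs ∣ 1 := by
        have := Int.natAbs_dvd_natAbs.2 h4
        simpa using this
      rw [Int.natAbs_natCast] at h5
      have := Nat.le_of_dvd one_pos h5
      omega
    have h4 := Pool.Agent.N792.SingTail.rho_leg 1 1 (c : ℤ) hp h2 hpa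
    rw [← card_Z] at h4
    have h5 : jacobiSym (1 ^ 2 - 4 * 1 * (c : ℤ)) p ≤ 1 := by
      rcases jacobiSym.trichotomy (1 ^ 2 - 4 * 1 * (c : ℤ)) p with h | h | h <;> rw [h] <;> norm_num
    omega

theorem VV_eq (c z : ℕ) : Pool.Agent.Y843.HS.VV (Z c) 0 z = Vc 1 1 (c : ℤ) z := by
  unfold Pool.Agent.Y843.HS.VV Vc Pool.Agent.Y843.HS.Pr
  have e : Ioc 0 z = Icc 1 z := by
    ext n
    rw [mem_Ioc, mem_Icc]
    omega
  rw [e]
  rfl

/-- **narrow progressions** -/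
theorem szem (k : ℕ) (δ : ℝ) (hδ : 0 < δ) : ∃ B X₀ : ℕ, ∀ N : ℕ, X₀ ≤ N → ∀ c : ℕ, Odd c →
    ∀ S : Finset ℕ, (∀ n ∈ S, n ≤ N ∧ (N : ℝ) ^ (1 / 5 : ℝ) < n ∧ (n ^ 2 + n + c).Prime) →
    δ * N * Vc 1 1 (c : ℤ) ⌊(N : ℝ) ^ (1 / 5 : ℝ)⌋₊ ≤ S.card →
    ∃ a d : ℕ, 1 ≤ d ∧ (d : ℝ) ≤ Real.log N ^ B ∧ ∀ j < k, a + j * d ∈ S := by
  obtain ⟨B, X₀, h⟩ := Pool.Agent.Y843.HS.fin k 2 (1 / 5) δ (by norm_num) hδ
  refine ⟨B, X₀, fun N hN c hc S hS hcard => h N 0 hN (Z c) ?_ S ?_ ?_ ?_⟩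
  · intro p hp _
    obtain ⟨h1, h2⟩ := Z_le c p hc hp
    exact ⟨h1, h2, fun r hr => mem_range.1 (mem_filter.1 hr).1⟩
  · intro n hn
    obtain ⟨h1, h2, -⟩ := hS n hn
    rw [mem_Ioc]
    refine ⟨?_, by omega⟩
    have h3 : (0 : ℝ) < n := lt_of_le_of_lt (Real.rpow_nonneg (Nat.cast_nonneg N) _) h2
    exact_mod_cast h3
  · intro n hn p hp hpN hmem
    obtain ⟨h1, h2, h3⟩ := hS n hn
    have h4 := (mem_filter.1 hmem).2
    rw [fv_eq] at h4
    have h5 : p ∣ (n % p) ^ 2 + n % p + c := by exact_mod_cast h4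
    have h6 : (n % p) ^ 2 + n % p + c ≡ n ^ 2 + n + c [MOD p] :=
      (((Nat.mod_modEq n p).pow 2).add (Nat.mod_modEq n p)).add_right c
    have h7 : p ∣ n ^ 2 + n + c := (h6.dvd_iff (dvd_refl p)).1 h5
    have h8 := (Nat.prime_dvd_prime_iff_eq hp h3).1 h7
    have h9 : (p : ℝ) < n := lt_of_le_of_lt hpN h2
    have h10 : p < n := by exact_mod_cast h9
    nlinarith
  · rw [VV_eq]
    exact hcard

end Pool.Agent.P8H13.QF
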