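import Mathlib
import Pool.Agent.P8H13.QF.Sz
import Pool.Agent.N792.RStm
import Pool.Agent.N792.Shp
import Pool.Agent.N792.FinB
import Pool.Agent.N511.LL.Stm
import Pool.Agent.Y840.PT.Loc

/-!
# Dense sets of arguments with prime values of `x² + x + c`: real analysis (helper13)
-/

set_option autoImplicit false

namespace Pool.Agent.P8H13.QF

open Finset Filter Topology
open Pool.Agent.N792 (Vc V1 partialC Admissible eps gcdProd fv X8)

/-- the product of the factors `1 - 1 / (p - 1)` over the odd primes `p ≤ w` is at least `1 / w` -/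
theorem partial_ge (c : ℤ) (w : ℕ) (hw : 2 ≤ w) : 1 / (w : ℝ) ≤ partialC 1 1 c w := by
  have key : ∀ w : ℕ, 2 ≤ w → 1 / ((w : ℝ) - 1) ≤ ∏ j ∈ Icc 3 w, (1 - 1 / ((j : ℝ) - 1)) := by
    intro w hw
    induction w, hw using Nat.le_induction with
    | base => norm_num
    | succ n hn ih =>
      rw [Finset.prod_Icc_succ_top (by omega)]
      have hn2 : (2 : ℝ) ≤ n := by exact_mod_cast hn
      have h1 : 0 ≤ 1 - 1 / (((n + 1 : ℕ) : ℝ) - 1) := by
        push_cast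
        rw [sub_nonneg, div_le_one (by linarith)]
        linarith
      refine le_trans ?_ (mul_le_mul_of_nonneg_right ih h1)
      push_cast
      rw [show (n : ℝ) + 1 - 1 = n by ring]
      have h2 : 1 / ((n : ℝ) - 1) * (1 - 1 / (n : ℝ)) = 1 / n := by
        have h3 : (n : ℝ) - 1 ≠ 0 := by
          intro h
          linarith
        have h4 : (n : ℝ) ≠ 0 := by
          intro h
          linarith
        field_simp
      rw [h2]
  have hw1 : (2 : ℝ) ≤ w := by exact_mod_cast hw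
  have hw2 : 1 / (w : ℝ) ≤ 1 / ((w : ℝ) - 1) := one_div_le_one_div_of_le (by linarith) (by linarith)
  refine (hw2.trans (key w hw)).trans ?_
  unfold partialC
  have hsub : (Icc 3 w).filter (fun p : ℕ => p.Prime ∧ ¬ (p : ℤ) ∣ 1) ⊆ Icc 3 w := filter_subset _ _
  have h3 : ∀ j ∈ Icc 3 w, 0 ≤ 1 - 1 / ((j : ℝ) - 1) ∧ 1 - 1 / ((j : ℝ) - 1) ≤ 1 := by
    intro j hj
    have hj3 : (3 : ℝ) ≤ j := by exact_mod_cast (mem_Icc.1 hj).1
    constructor
    · rw [sub_nonneg, div_le_one (by linarith)]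
      linarith
    · have : 0 ≤ 1 / ((j : ℝ) - 1) := by
        apply div_nonneg zero_le_one
        linarith
      linarith
  calc ∏ j ∈ Icc 3 w, (1 - 1 / ((j : ℝ) - 1))
      = (∏ j ∈ Icc 3 w \ (Icc 3 w).filter (fun p : ℕ => p.Prime ∧ ¬ (p : ℤ) ∣ 1), (1 - 1 / ((j : ℝ) - 1))) *
        ∏ j ∈ (Icc 3 w).filter (fun p : ℕ => p.Prime ∧ ¬ (p : ℤ) ∣ 1), (1 - 1 / ((j : ℝ) - 1)) :=
        (prod_sdiff hsub).symm
    _ ≤ 1 * ∏ j ∈ (Icc 3 w).filter (fun p : ℕ => p.Prime ∧ ¬ (p : ℤ) ∣ 1), (1 - 1 / ((j : ℝ) - 1)) := by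
        apply mul_le_mul_of_nonneg_right
        · apply prod_le_one
          · intro j hj
            exact (h3 j (mem_sdiff.1 hj).1).1
          · intro j hj
            exact (h3 j (mem_sdiff.1 hj).1).2
        · exact prod_nonneg fun j hj => (h3 j (hsub hj)).1
    _ ≤ _ := by
        rw [one_mul]
        apply Finset.prod_le_prod
        · intro j hj
          exact (h3 j (hsub hj)).1
        · intro j hj
          have hj3 : (3 : ℝ) ≤ j := by exact_mod_cast (mem_Icc.1 (hsub hj)).1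
          have h4 : (jacobiSym (1 ^ 2 - 4 * 1 * c) j : ℝ) ≤ 1 := by
            rcases jacobiSym.trichotomy (1 ^ 2 - 4 * 1 * c) j with h | h | h <;> rw [h] <;> norm_num
          have h5 : (jacobiSym (1 ^ 2 - 4 * 1 * c) j : ℝ) / ((j : ℝ) - 1) ≤ 1 / ((j : ℝ) - 1) :=
            div_le_div_of_nonneg_right h4 (by linarith)
          linarith

/-- the arguments -/
def Args (c n : ℕ) : Finset ℕ := (range (n + 1)).filter (fun x : ℕ => (x ^ 2 + x + c).Prime)

/-- the first terms of progressions in `U` -/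
def First (m : ℕ) (Q : ℝ) (U : Finset ℕ) : Set ℕ :=
  {a | a ∈ U ∧ ∃ D : ℕ, 1 ≤ D ∧ (D : ℝ) ≤ Q ∧ ∀ j < m, a + j * D ∈ U}

/-- the elements of `U` which are no first terms -/
noncomputable def rest (m : ℕ) (Q : ℝ) (U : Finset ℕ) : Finset ℕ :=
  by classical exact U.filter (fun a => a ∉ First m Q U)

/-- from the lower bound to the progressions, for one `c` -/
theorem one (m : ℕ) (η κ : ℝ) (hη : 0 < η) (hη1 : η ≤ 1 / 4) (hκ : 0 < κ) (hκ1 : κ ≤ 1) :
    ∃ B N₀ : ℕ, ∀ N : ℕ, N₀ ≤ N → ∀ c : ℕ, Odd c → ∀ S : ℝ,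
      1 / (4 * Real.log N ^ 13) ≤ S →
      Vc 1 1 (c : ℤ) ⌊(N : ℝ) ^ (1 / 5 : ℝ)⌋₊ ≤ 8 * S * V1 ⌊(N : ℝ) ^ (1 / 5 : ℝ)⌋₊ →
      ∀ n : ℕ, κ * N ≤ n → n ≤ N → 1 / 2 * (S * (n / Real.log N)) ≤ ((Args c n).card : ℝ) →
        ∀ U ⊆ Args c n, ((rest m (Real.log N ^ B) U).card : ℝ) ≤ η * (Args c n).card := by
  classical
  obtain ⟨C, hC, hm⟩ := Pool.Agent.Y840.PT.mert
  obtain ⟨δ, hδ⟩ : ∃ δ : ℝ, δ = η * κ / (400 * C) := ⟨_, rfl⟩
  have hδ0 : 0 < δ := by rw [hδ]; positivity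
  obtain ⟨B, X₀, hsz⟩ := szem (m + 1) δ hδ0
  have hlog : Tendsto (fun N : ℕ => Real.log (N : ℝ)) atTop atTop :=
    Real.tendsto_log_atTop.comp tendsto_natCast_atTop_atTop
  have hp5 : Tendsto (fun N : ℕ => (N : ℝ) ^ (1 / 10 : ℝ)) atTop atTop :=
    (tendsto_rpow_atTop (by norm_num)).comp tendsto_natCast_atTop_atTop
  have hlp : ∀ᶠ N : ℕ in atTop, (64 / (η * κ)) * Real.log N ^ 14 ≤ (N : ℝ) ^ (1 / 5 : ℝ) := by
    have h1 : (fun x : ℝ => Real.log x ^ 14) =o[atTop] (fun x : ℝ => x ^ (1 / 5 : ℝ)) := by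
      have := isLittleO_log_rpow_rpow_atTop (14 : ℝ) (show (0 : ℝ) < 1 / 5 by norm_num)
      refine this.congr' ?_ (Filter.EventuallyEq.refl _ _)
      filter_upwards [eventually_gt_atTop (1 : ℝ)] with x hx
      rw [← Real.rpow_natCast]
      norm_num
    have h2 := h1.bound (show (0 : ℝ) < η * κ / 64 by positivity)
    have h3 := tendsto_natCast_atTop_atTop.eventually h2
    filter_upwards [h3, eventually_ge_atTop 1] with N hN hN1
    have hN1' : (1 : ℝ) ≤ N := by exact_mod_cast hN1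
    rw [Real.norm_of_nonneg (pow_nonneg (Real.log_nonneg hN1') _),
      Real.norm_of_nonneg (Real.rpow_nonneg (by linarith) _)] at hN
    calc (64 / (η * κ)) * Real.log N ^ 14 ≤ (64 / (η * κ)) * (η * κ / 64 * (N : ℝ) ^ (1 / 5 : ℝ)) := by gcongr
      _ = _ := by field_simp
  obtain ⟨N₁, hN₁⟩ := eventually_atTop.1 ((hlog.eventually_ge_atTop 2).and
    ((hp5.eventually_ge_atTop 3).and hlp))
  refine ⟨B, max X₀ (max N₁ 3), fun N hN c hc S hS hV n hn1 hn2 hcard U hU => ?_⟩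
  obtain ⟨b1, b2, b3⟩ := hN₁ N (by omega)
  have hN3 : 3 ≤ N := by omega
  have hN0 : (0 : ℝ) < N := by exact_mod_cast (by omega : 0 < N)
  have hN1 : (1 : ℝ) ≤ N := by exact_mod_cast (by omega : 1 ≤ N)
  obtain ⟨L, hL⟩ : ∃ L : ℝ, L = Real.log N := ⟨_, rfl⟩
  rw [← hL] at b1 b3 hS hcard ⊢
  have hL0 : 0 < L := by linarith
  obtain ⟨z, hz⟩ : ∃ z : ℝ, z = (N : ℝ) ^ (1 / 5 : ℝ) := ⟨_, rfl⟩
  rw [← hz] at b3 hV
  -- `z` is a power of `N`
  have hz2 : z = (N : ℝ) ^ (1 / 10 : ℝ) * (N : ℝ) ^ (1 / 10 : ℝ) := by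
    rw [hz, ← Real.rpow_add hN0]
    norm_num
  have hz9 : 9 ≤ z := by rw [hz2]; nlinarith
  have hfl : (N : ℝ) ^ (1 / 10 : ℝ) ≤ (⌊z⌋₊ : ℝ) := by
    have h1 := Nat.lt_floor_add_one z
    have h2 : 3 * (N : ℝ) ^ (1 / 10 : ℝ) ≤ z := by rw [hz2]; nlinarith
    linarith
  have hfl2 : 2 ≤ ⌊z⌋₊ := Nat.le_floor (by push_cast; linarith)
  have hlogz : L / 10 ≤ Real.log (⌊z⌋₊ : ℝ) := by
    have h1 := Real.log_le_log (Real.rpow_pos_of_pos hN0 _) hfl
    rw [Real.log_rpow hN0, ← hL] at h1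
    linarith
  have hV1 : V1 ⌊z⌋₊ ≤ 10 * C / L := by
    have h1 := hm ⌊z⌋₊ hfl2
    have e : V1 ⌊z⌋₊ = ∏ p ∈ Pool.Agent.Y840.PT.P0 ⌊z⌋₊, (1 - 1 / (p : ℝ)) := by
      unfold V1 Pool.Agent.Y840.PT.P0
      have e1 : Icc 1 ⌊z⌋₊ = Ioc 0 ⌊z⌋₊ := by
        ext x
        rw [mem_Icc, mem_Ioc]
        omega
      rw [e1]
    rw [e]
    refine h1.trans ?_
    rw [div_le_div_iff₀ (by linarith [div_pos hL0 (by norm_num : (0 : ℝ) < 10)]) hL0]
    nlinarith
  have hS0 : 0 < S := lt_of_lt_of_le (by positivity) hS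
  have hVc : Vc 1 1 (c : ℤ) ⌊z⌋₊ ≤ 80 * C * S / L := by
    refine hV.trans ?_
    calc 8 * S * V1 ⌊z⌋₊ ≤ 8 * S * (10 * C / L) := mul_le_mul_of_nonneg_left hV1 (by positivity)
      _ = _ := by ring
  by_contra hcon
  push Not at hcon
  obtain ⟨R, hR⟩ : ∃ R : Finset ℕ, R = rest m (L ^ B) U := ⟨_, rfl⟩
  rw [← hR] at hcon
  have hRU : R ⊆ U := by
    rw [hR]
    unfold rest
    exact filter_subset _ _
  obtain ⟨R', hR'⟩ : ∃ R' : Finset ℕ, R' = R.filter (fun x : ℕ => z < (x : ℝ)) := ⟨_, rfl⟩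
  have hcut : (R.card : ℝ) ≤ R'.card + (z + 1) := by
    have h1 : R.card = R'.card + (R.filter (fun x : ℕ => ¬ z < (x : ℝ))).card := by
      rw [hR', card_filter_add_card_filter_not]
    have h2 : (R.filter (fun x : ℕ => ¬ z < (x : ℝ))).card ≤ ⌊z⌋₊ + 1 := by
      rw [← card_range (⌊z⌋₊ + 1)]
      apply card_le_card
      intro x hx
      rw [mem_filter, not_lt] at hx
      rw [mem_range, Nat.lt_succ_iff]
      exact Nat.le_floor hx.2
    have h3 : (⌊z⌋₊ : ℝ) ≤ z := Nat.floor_le (by linarith)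
    have h4 : ((R.filter (fun x : ℕ => ¬ z < (x : ℝ))).card : ℝ) ≤ ⌊z⌋₊ + 1 := by exact_mod_cast h2
    rw [h1]
    push_cast
    linarith
  -- the main term
  obtain ⟨Y, hY⟩ : ∃ Y : ℝ, Y = S * (N / L) := ⟨_, rfl⟩
  have hY0 : 0 < Y := by rw [hY]; positivity
  have hnN : κ * Y ≤ S * (n / L) := by
    rw [hY]
    calc κ * (S * (N / L)) = S * (κ * N / L) := by ring
      _ ≤ S * (n / L) := by gcongr
  have hzY : z + 1 ≤ η * κ / 8 * Y := by
    -- `z ≤ N / (z ...)`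
    have h1 : z * z ≤ N := by
      rw [hz, ← Real.rpow_add hN0]
      calc (N : ℝ) ^ (1 / 5 + 1 / 5 : ℝ) ≤ (N : ℝ) ^ (1 : ℝ) :=
            Real.rpow_le_rpow_of_exponent_le hN1 (by norm_num)
        _ = N := Real.rpow_one _
    have h2 : 1 / (4 * L ^ 13) * (N / L) ≤ Y := by
      rw [hY]
      exact mul_le_mul_of_nonneg_right hS (by positivity)
    have h3 : 64 * L ^ 14 ≤ η * κ * z := by
      have h4 : 64 / (η * κ) * L ^ 14 = 64 * L ^ 14 / (η * κ) := by ring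
      rw [h4, div_le_iff₀ (by positivity)] at b3
      linarith
    have h5 : 1 / (4 * L ^ 13) * (N / L) = N / (4 * L ^ 14) := by
      field_simp
    rw [h5] at h2
    have h6 : 2 * z ≤ η * κ / 8 * (N / (4 * L ^ 14)) := by
      rw [← mul_div_assoc, le_div_iff₀ (by positivity)]
      have h7 : 2 * z * (4 * L ^ 14) = z * (64 * L ^ 14) / 8 := by ring
      have h8 : z * (64 * L ^ 14) ≤ z * (η * κ * z) := mul_le_mul_of_nonneg_left h3 (by linarith)
      have h9 : η * κ * (z * z) ≤ η * κ * N := mul_le_mul_of_nonneg_left h1 (by positivity)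
      rw [h7]
      nlinarith
    have h10 : η * κ / 8 * (N / (4 * L ^ 14)) ≤ η * κ / 8 * Y := mul_le_mul_of_nonneg_left h2 (by positivity)
    linarith
  have hRbig : η * κ / 4 * Y ≤ R'.card := by
    have h1 : η * (1 / 2 * (κ * Y)) ≤ η * (Args c n).card := by
      apply mul_le_mul_of_nonneg_left _ hη.le
      refine le_trans ?_ hcard
      apply mul_le_mul_of_nonneg_left hnN (by norm_num)
    nlinarith
  have hdens : δ * N * Vc 1 1 (c : ℤ) ⌊(N : ℝ) ^ (1 / 5 : ℝ)⌋₊ ≤ R'.card := by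
    rw [← hz]
    refine le_trans ?_ hRbig
    calc δ * N * Vc 1 1 (c : ℤ) ⌊z⌋₊ ≤ δ * N * (80 * C * S / L) :=
          mul_le_mul_of_nonneg_left hVc (by positivity)
      _ = η * κ / 5 * Y := by
          rw [hδ, hY]
          field_simp
          ring
      _ ≤ η * κ / 4 * Y := by
          apply mul_le_mul_of_nonneg_right _ hY0.le
          have : 0 < η * κ := by positivity
          linarith
  obtain ⟨a, d, hd1, hd2, hAP⟩ := hsz N (by omega) c hc R' (by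
    intro x hx
    rw [hR', mem_filter] at hx
    have h1 := hU (hRU hx.1)
    unfold Args at h1
    rw [mem_filter, mem_range] at h1
    refine ⟨by omega, ?_, h1.2⟩
    rw [← hz]
    exact hx.2) hdens
  rw [← hL] at hd2
  have hR'R : R' ⊆ R := by rw [hR']; exact filter_subset _ _
  have ha : a ∈ R := by
    have := hAP 0 (by omega)
    rw [zero_mul, add_zero] at this
    exact hR'R this
  rw [hR] at ha
  unfold rest at ha
  rw [mem_filter] at ha
  exact ha.2 ⟨ha.1, d, hd1, hd2, fun j hj => hRU (hR'R (hAP j (by omega)))⟩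

end Pool.Agent.P8H13.QF
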