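import Mathlib
import Pool.Agent.P8H13.QF.Core
import Pool.Agent.N792.T9
import Pool.Agent.N792.T7S
import Pool.Agent.N511.LL.I0
import Pool.Agent.N511.LL.K0

/-!
# Dense sets of arguments with prime values of `x² + x + c`: conclusion (helper13)
-/

set_option autoImplicit false

namespace Pool.Agent.P8H13.QF

open Finset Filter Topology
open Pool.Agent.N792 (Vc V1 partialC Admissible eps gcdProd fv t9 t7s x8 li_asym)
open Pool.Agent.N511.LL.I0aux (eps_val gcd_val adm)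

/-- `L_A(n)` -/
noncomputable def LL (A n : ℕ) : ℝ := 2 * ∫ x in (0 : ℝ)..n, 1 / Real.log (x ^ 2 + x + A)

/-- the truncated products -/
noncomputable def Cy (A y : ℕ) : ℝ :=
  ∏ p ∈ (Icc 3 y).filter Nat.Prime, (1 - (jacobiSym (1 - 4 * (A : ℤ)) p : ℝ) / ((p : ℝ) - 1))

theorem Cy_eq (A y : ℕ) : partialC 1 1 (A : ℤ) y = Cy A y := by
  unfold partialC Cy
  have hs : (Icc 3 y).filter (fun p : ℕ => p.Prime ∧ ¬ (p : ℤ) ∣ 1) = (Icc 3 y).filter Nat.Prime := by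
    apply filter_congr
    intro p hp
    rw [mem_Icc] at hp
    constructor
    · exact fun h => h.1
    · intro h
      refine ⟨h, fun h4 => ?_⟩
      have h5 : (p : ℤ).natAbs ∣ 1 := by
        have := Int.natAbs_dvd_natAbs.2 h4
        simpa using this
      rw [Int.natAbs_natCast] at h5
      have := Nat.le_of_dvd one_pos h5
      omega
  rw [hs]
  refine prod_congr rfl fun p _ => ?_
  have e : (1 : ℤ) ^ 2 - 4 * 1 * (A : ℤ) = 1 - 4 * (A : ℤ) := by ring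
  rw [e]

theorem V1_pos (z : ℕ) : 0 < V1 z := by
  unfold V1
  apply prod_pos
  intro p hp
  have h2 : (2 : ℝ) ≤ p := by exact_mod_cast (mem_filter.1 hp).2.two_le
  rw [sub_pos, div_lt_one (by linarith)]
  linarith

theorem filt_eq (c n : ℕ) : (Ioc 0 n).filter (fun x : ℕ => (fv 1 1 (c : ℤ) x).toNat.Prime) =
    (Icc 1 n).filter (fun x : ℕ => (x ^ 2 + x + c).Prime) := by
  ext x
  simp only [mem_filter, mem_Ioc, mem_Icc, fv_eq, Int.toNat_natCast]
  constructor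
  · rintro ⟨⟨h1, h2⟩, h3⟩
    exact ⟨⟨by omega, h2⟩, h3⟩
  · rintro ⟨⟨h1, h2⟩, h3⟩
    exact ⟨⟨by omega, h2⟩, h3⟩

theorem Args_cmp (c n : ℕ) :
    ((((Icc 1 n).filter (fun x : ℕ => (x ^ 2 + x + c).Prime)).card : ℝ) ≤ ((Args c n).card : ℝ)) ∧
    (((Args c n).card : ℝ) ≤ (((Icc 1 n).filter (fun x : ℕ => (x ^ 2 + x + c).Prime)).card : ℝ) + 1) := by
  have h : range (n + 1) = insert 0 (Icc 1 n) := by
    ext m
    simp only [mem_range, mem_insert, mem_Icc]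
    omega
  constructor
  · apply Nat.cast_le.2
    apply card_le_card
    intro x hx
    unfold Args
    rw [mem_filter] at hx ⊢
    rw [mem_Icc] at hx
    rw [mem_range]
    exact ⟨by omega, hx.2⟩
  · have h1 : (Args c n).card ≤ ((Icc 1 n).filter (fun x : ℕ => (x ^ 2 + x + c).Prime)).card + 1 := by
      unfold Args
      rw [h, filter_insert]
      split_ifs with h0
      · exact card_insert_le _ _
      · omega
    exact_mod_cast h1

/-- the inequalities for the lower bound -/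
theorem real_low {P Sg LA S y X h η0 κ : ℝ} (hη0 : 0 < η0) (hη1 : η0 ≤ 1 / 4) (hκ : 0 < κ)
    (hh : h = η0 * κ / 8) (hS : 0 < S) (hy : 0 < y) (hX : 0 < X) (hXy : κ * X ≤ y)
    (h1 : 3 / 4 * (2 * S * 1 * Sg) - h * (2 * S * 1 * X) ≤ P) (h2 : |Sg - y / 2| ≤ h * X)
    (h3 : |LA - y| ≤ η0 / 8 * y) :
    1 / 2 * (S * y) ≤ P ∧ ∀ η : ℝ, η0 ≤ η → (3 / 4 - η) * S * LA ≤ P := by
  obtain ⟨a1, a2⟩ := abs_le.1 h2
  obtain ⟨b1, b2⟩ := abs_le.1 h3
  have hhX : h * X ≤ η0 / 8 * y := by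
    rw [hh]
    calc η0 * κ / 8 * X = η0 / 8 * (κ * X) := by ring
      _ ≤ _ := mul_le_mul_of_nonneg_left hXy (by positivity)
  have hhX0 : 0 ≤ h * X := by rw [hh]; positivity
  have hP : S * ((3 / 4 - 7 / 16 * η0) * y) ≤ P := by
    refine le_trans ?_ h1
    have e : 3 / 4 * (2 * S * 1 * Sg) - h * (2 * S * 1 * X) = S * (3 / 2 * Sg - 2 * (h * X)) := by ring
    rw [e]
    apply mul_le_mul_of_nonneg_left _ hS.le
    nlinarith
  have hLA : 0 ≤ LA := by nlinarith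
  constructor
  · refine le_trans ?_ hP
    have : 1 / 2 * (S * y) = S * (1 / 2 * y) := by ring
    rw [this]
    apply mul_le_mul_of_nonneg_left _ hS.le
    apply mul_le_mul_of_nonneg_right _ hy.le
    linarith
  · intro η hη
    refine le_trans ?_ hP
    have : (3 / 4 - η) * S * LA = S * ((3 / 4 - η) * LA) := by ring
    rw [this]
    apply mul_le_mul_of_nonneg_left _ hS.le
    have h5 : (3 / 4 - η) * LA ≤ (3 / 4 - η0) * LA := by
      apply mul_le_mul_of_nonneg_right _ hLA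
      linarith
    have h6 : (3 / 4 - η0) * LA ≤ (3 / 4 - η0) * ((1 + η0 / 8) * y) := by
      apply mul_le_mul_of_nonneg_left _ (by linarith)
      linarith
    have h7 : (3 / 4 - η0) * ((1 + η0 / 8) * y) ≤ (3 / 4 - 7 / 16 * η0) * y := by
      rw [← mul_assoc]
      apply mul_le_mul_of_nonneg_right _ hy.le
      nlinarith
    linarith

/-- the inequalities for the asymptotic formula -/
theorem real_asy {P P1 Sg LA S y X h η0 κ : ℝ} (hη0 : 0 < η0) (hη1 : η0 ≤ 1 / 4) (hκ : 0 < κ)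
    (hh : h = η0 * κ / 8) (hS : 0 < S) (hy : 0 < y) (hX : 0 < X) (hXy : κ * X ≤ y)
    (h1 : |P1 - 2 * S * 1 * Sg| ≤ h * (2 * S * 1 * X)) (h2 : |Sg - y / 2| ≤ h * X)
    (h3 : |LA - y| ≤ η0 / 8 * y) (h4 : P1 ≤ P) (h5 : P ≤ P1 + 1) (h6 : 1 ≤ η0 / 8 * (S * y)) :
    ∀ η : ℝ, η0 ≤ η → |P - S * LA| ≤ η * S * LA := by
  obtain ⟨a1, a2⟩ := abs_le.1 h2
  obtain ⟨b1, b2⟩ := abs_le.1 h3
  obtain ⟨c1, c2⟩ := abs_le.1 h1
  have hhX : h * X ≤ η0 / 8 * y := by
    rw [hh]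
    calc η0 * κ / 8 * X = η0 / 8 * (κ * X) := by ring
      _ ≤ _ := mul_le_mul_of_nonneg_left hXy (by positivity)
  have hhXS : h * (2 * S * 1 * X) ≤ η0 / 4 * (S * y) := by
    calc h * (2 * S * 1 * X) = 2 * S * (h * X) := by ring
      _ ≤ 2 * S * (η0 / 8 * y) := mul_le_mul_of_nonneg_left hhX (by positivity)
      _ = _ := by ring
  have d1 : S * Sg ≤ S * (y / 2 + η0 / 8 * y) := mul_le_mul_of_nonneg_left (by linarith) hS.le
  have d2 : S * (y / 2 - η0 / 8 * y) ≤ S * Sg := mul_le_mul_of_nonneg_left (by linarith) hS.le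
  have d3 : S * LA ≤ S * (y + η0 / 8 * y) := mul_le_mul_of_nonneg_left (by linarith) hS.le
  have d4 : S * (y - η0 / 8 * y) ≤ S * LA := mul_le_mul_of_nonneg_left (by linarith) hS.le
  have hSy : 0 < S * y := by positivity
  have hηSy : 0 < η0 * (S * y) := by positivity
  have h7 : |P - S * LA| ≤ 3 / 4 * η0 * (S * y) := by
    rw [abs_le]
    constructor <;> nlinarith
  intro η hη
  refine h7.trans ?_
  have h8 : 3 / 4 * (S * y) ≤ S * LA := by nlinarith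
  calc 3 / 4 * η0 * (S * y) = η0 * (3 / 4 * (S * y)) := by ring
    _ ≤ η * (S * LA) := mul_le_mul hη h8 (by positivity) (by linarith)
    _ = _ := by ring

/-- **the progressions in dense sets of arguments** -/
theorem main (m : ℕ) (ε η κ : ℝ) (hε : 0 < ε) (hη : 0 < η) (hκ : 0 < κ) (hκ1 : κ ≤ 1) :
    ∃ B N₀ : ℕ, ∀ N : ℕ, N₀ ≤ N → ∀ C : ℕ, (N : ℝ) ^ (7 / 10 + ε) ≤ C → C ≤ N →
      ∃ E : Finset ℕ, (E.card : ℝ) ≤ η * C ∧ ∀ c : ℕ, Odd c → 3 ≤ c → c ≤ C → c ∉ E →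
        ∃ S : ℝ, 0 < S ∧ Tendsto (fun y => Cy c y) atTop (𝓝 S) ∧
          ∀ n : ℕ, κ * N ≤ n → n ≤ N →
            (3 / 4 - η) * S * LL c n ≤ ((Args c n).card : ℝ) ∧
            ((N : ℝ) ^ (5 / 6 + ε) ≤ C → |((Args c n).card : ℝ) - S * LL c n| ≤ η * S * LL c n) ∧
            ∀ U ⊆ Args c n, ((rest m (Real.log N ^ B) U).card : ℝ) ≤ η * (Args c n).card := by
  classical
  obtain ⟨η0, hη0⟩ : ∃ η0 : ℝ, η0 = min η (1 / 4) := ⟨_, rfl⟩
  have hη00 : 0 < η0 := by rw [hη0]; positivity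
  have hη0a : η0 ≤ η := by rw [hη0]; exact min_le_left _ _
  have hη0b : η0 ≤ 1 / 4 := by rw [hη0]; exact min_le_right _ _
  obtain ⟨h, hh⟩ : ∃ h : ℝ, h = η0 * κ / 8 := ⟨_, rfl⟩
  have hh0 : 0 < h := by rw [hh]; positivity
  have hhη : h ≤ η / 8 := by
    rw [hh]
    nlinarith
  obtain ⟨x1, hx1⟩ := t9 1 one_pos ((1 : ℕ) : ℤ) ε h hε hh0
  obtain ⟨x2, hx2⟩ := x8 1 one_pos ((1 : ℕ) : ℤ) 1 13
  obtain ⟨x3, hx3⟩ := li_asym 1 one_pos ((1 : ℕ) : ℤ) h hh0
  obtain ⟨x4, hx4⟩ := t7s 1 one_pos ((1 : ℕ) : ℤ) ε hε h hh0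
  obtain ⟨x5, hx5⟩ := Pool.Agent.N511.LL.KK.LA_est 0 κ (η0 / 8) hκ (by positivity)
  obtain ⟨B, x6, hx6⟩ := one m η0 κ hη00 hη0b hκ hκ1
  obtain ⟨x7, hx7⟩ := eventually_atTop.1 (Pool.Agent.N792.Shp.log_ge (2 + 1 / h))
  obtain ⟨x8', hx8'⟩ := eventually_atTop.1 (Pool.Agent.N792.Shp.log_pow_le 13 1 (1 / 5) (by norm_num))
  obtain ⟨x9, hx9⟩ := eventually_atTop.1 (Pool.Agent.N792.Shp.log_pow_le 14 (32 / (η0 * κ)) (1 / 5) (by norm_num))
  refine ⟨B, x1 + x2 + x3 + x4 + x5 + x6 + x7 + x8' + x9 + 2, fun N hN C hC1 hC2 => ?_⟩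
  have b7 := hx7 N (by omega)
  have b8 := hx8' N (by omega)
  have b9 := hx9 N (by omega)
  rw [one_mul] at b8
  obtain ⟨L, hL⟩ : ∃ L : ℝ, L = Real.log N := ⟨_, rfl⟩
  have hN0 : (0 : ℝ) < N := by exact_mod_cast (by omega : 0 < N)
  have hN1 : (1 : ℝ) ≤ N := by exact_mod_cast (by omega : 1 ≤ N)
  rw [← hL] at b7 b8 b9
  have hinv : 0 < 1 / h := by positivity
  have hL2 : 2 ≤ L := by linarith
  have hLh : 1 / h ≤ L := by linarith
  have hL0 : 0 < L := by linarith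
  -- the parameter `w`
  obtain ⟨w, hw⟩ : ∃ w : ℕ, w = ⌈L ^ 12⌉₊ := ⟨_, rfl⟩
  have hw1 : L ^ 12 ≤ w := by rw [hw]; exact Nat.le_ceil _
  have hL12 : 1 ≤ L ^ 12 := one_le_pow₀ (by linarith)
  have hw2 : (w : ℝ) ≤ L ^ 13 := by
    have h1 : (w : ℝ) < L ^ 12 + 1 := by
      rw [hw]
      exact Nat.ceil_lt_add_one (by positivity)
    have h2 : L ^ 13 = L * L ^ 12 := by ring
    rw [h2]
    nlinarith
  have hw2' : 2 ≤ w := by
    have h1 : (2 : ℝ) ≤ w := by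
      have h2 : L ≤ L ^ 12 := le_self_pow₀ (by linarith) (by norm_num)
      linarith
    exact_mod_cast h1
  obtain ⟨z, hz⟩ : ∃ z : ℕ, z = ⌊(N : ℝ) ^ (1 / 5 : ℝ)⌋₊ := ⟨_, rfl⟩
  have hwz : w ≤ z := by
    rw [hz]
    exact Nat.le_floor (hw2.trans b8)
  have hz1 : (z : ℝ) ≤ (N : ℝ) ^ (1 / 5 : ℝ) := by
    rw [hz]
    exact Nat.floor_le (Real.rpow_nonneg hN0.le _)
  have hC12 : (N : ℝ) ^ (1 / 2 : ℝ) ≤ C :=
    (Real.rpow_le_rpow_of_exponent_le hN1 (by linarith)).trans hC1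
  have hC0 : (0 : ℝ) < C := lt_of_lt_of_le (Real.rpow_pos_of_pos hN0 _) hC12
  obtain ⟨E1, -, hE1b, hE1c⟩ := hx1 N (by omega) C hC1 hC2
  obtain ⟨E2, -, hE2b, hE2c⟩ := hx2 N (by omega) C hC12 hC2 w z (by rw [← hL]; exact hw1)
    (by rw [← hL]; exact hw2) hwz hz1
  rw [← hL, pow_one] at hE2b
  obtain ⟨E3, hE3b, hE3c⟩ : ∃ E3 : Finset ℕ, (E3.card : ℝ) ≤ h * C ∧ ((N : ℝ) ^ (5 / 6 + ε) ≤ C →
      ∀ c ∈ Icc 1 C, c ∉ E3 → Admissible 1 ((1 : ℕ) : ℤ) c →
        ∃ S : ℝ, 0 < S ∧ Tendsto (fun z => partialC 1 ((1 : ℕ) : ℤ) c z) atTop (𝓝 S) ∧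
          ∀ u v : ℕ, u ≤ v → v ≤ N →
            |(((Ioc u v).filter (fun m : ℕ => (fv 1 ((1 : ℕ) : ℤ) c m).toNat.Prime)).card : ℝ) -
                eps 1 ((1 : ℕ) : ℤ) * S * gcdProd 1 ((1 : ℕ) : ℤ) *
                  ∑ m ∈ Ioc u v, 1 / Real.log (((1 : ℤ) : ℝ) * m ^ 2 + (((1 : ℕ) : ℤ) : ℝ) * m + c)| ≤
              h * (eps 1 ((1 : ℕ) : ℤ) * S * gcdProd 1 ((1 : ℕ) : ℤ) * N / Real.log N)) := by
    by_cases hc : (N : ℝ) ^ (5 / 6 + ε) ≤ C
    · obtain ⟨E3, -, h1, h2⟩ := hx4 N (by omega) C hc hC2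
      exact ⟨E3, h1, fun _ => h2⟩
    · refine ⟨∅, ?_, fun h1 => absurd h1 hc⟩
      rw [card_empty, Nat.cast_zero]
      positivity
  refine ⟨E1 ∪ E2 ∪ E3, ?_, fun c ho hc3 hcC hcE => ?_⟩
  · have h1 : ((E1 ∪ E2 ∪ E3).card : ℝ) ≤ E1.card + E2.card + E3.card := by
      have h2 := ((card_union_le (E1 ∪ E2) E3).trans (Nat.add_le_add_right (card_union_le E1 E2) _))
      exact_mod_cast h2
    have h2 : (C : ℝ) / L ≤ h * C := by
      rw [div_le_iff₀ hL0]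
      have h4 : 1 ≤ h * L := by
        rw [div_le_iff₀ hh0] at hLh
        linarith
      nlinarith
    nlinarith
  · rw [mem_union, mem_union, not_or, not_or] at hcE
    obtain ⟨⟨g1, g2⟩, g3⟩ := hcE
    have hcI : c ∈ Icc 1 C := mem_Icc.2 ⟨by omega, hcC⟩
    have hadm := adm 1 (Or.inr rfl) c (by omega) (fun _ => ho)
    have heps : eps 1 ((1 : ℕ) : ℤ) = 2 := by
      rw [eps_val 1 (Or.inr rfl)]
      norm_num
    obtain ⟨S, hS0, hSt, hb1⟩ := hE1c c hcI g1 hadm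
    obtain ⟨hV, hX8⟩ := hE2c c hcI g2
    obtain ⟨S', hS0', hSt', hb2⟩ := hX8 hadm
    have hSS : S' = S := tendsto_nhds_unique hSt' hSt
    rw [hSS, Pool.Agent.N792.SingTail.V_ratio hadm hw2' (by exact_mod_cast (by omega : 1 ≤ w)), gcd_val,
      heps, ← hL, pow_one, mul_one, mul_one] at hb2
    rw [← hL, pow_one] at hV
    obtain ⟨T, hT⟩ : ∃ T : ℝ, T = partialC 1 ((1 : ℕ) : ℤ) (c : ℤ) w := ⟨_, rfl⟩
    have hTV : Vc 1 ((1 : ℕ) : ℤ) (c : ℤ) w = 2 * T * V1 w := by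
      have h1 := Pool.Agent.N792.SingTail.V_ratio hadm hw2' (by exact_mod_cast (by omega : 1 ≤ w))
      rw [gcd_val, heps, mul_one, ← hT, div_eq_iff (V1_pos w).ne'] at h1
      exact h1
    have hTw : 1 / (w : ℝ) ≤ T := by
      rw [hT]
      exact partial_ge (c : ℤ) w hw2'
    rw [← hT] at hb2
    have hw0 : (0 : ℝ) < w := by exact_mod_cast (by omega : 0 < w)
    have hT0 : 0 < T := lt_of_lt_of_le (by positivity) hTw
    have hTL : 2 * T / L ≤ T := by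
      rw [div_le_iff₀ hL0]
      nlinarith
    have hST : T / 2 ≤ S := by
      obtain ⟨h1, -⟩ := abs_le.1 hb2
      linarith
    have hSlow : 1 / (4 * L ^ 13) ≤ S := by
      have h1 : 1 / L ^ 13 ≤ 1 / (w : ℝ) := one_div_le_one_div_of_le hw0 hw2
      have h2 : 1 / (4 * L ^ 13) = 1 / 4 * (1 / L ^ 13) := by
        rw [one_div_mul_one_div]
      rw [h2]
      have h3 : 0 < 1 / L ^ 13 := by positivity
      linarith
    have hVz : Vc 1 1 (c : ℤ) z ≤ 8 * S * V1 z := by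
      obtain ⟨-, h1⟩ := abs_le.1 hV
      rw [hTV] at h1
      obtain ⟨v, hv⟩ : ∃ v : ℝ, v = Vc 1 ((1 : ℕ) : ℤ) (c : ℤ) z := ⟨_, rfl⟩
      rw [← hv] at h1
      have h2 : 2 * T * V1 w * V1 z / L ≤ T * V1 w * V1 z := by
        have e : 2 * T * V1 w * V1 z / L = 2 * T / L * (V1 w * V1 z) := by ring
        rw [e, mul_assoc]
        exact mul_le_mul_of_nonneg_right hTL (mul_pos (V1_pos w) (V1_pos z)).le
      have h3 : v * V1 w ≤ 3 * T * V1 z * V1 w := by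
        have e : 3 * T * V1 z * V1 w = 2 * T * V1 w * V1 z + T * V1 w * V1 z := by ring
        rw [e]
        linarith
      have h4 := le_of_mul_le_mul_right h3 (V1_pos w)
      have h5 : 3 * T * V1 z ≤ 8 * S * V1 z := by
        apply mul_le_mul_of_nonneg_right _ (V1_pos z).le
        linarith
      rw [hv] at h4
      exact h4.trans h5
    refine ⟨S, hS0, ?_, fun n hn1 hn2 => ?_⟩
    · refine hSt.congr fun y => ?_
      exact Cy_eq c y
    · obtain ⟨y, hy⟩ : ∃ y : ℝ, y = n / L := ⟨_, rfl⟩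
      obtain ⟨X, hX⟩ : ∃ X : ℝ, X = N / L := ⟨_, rfl⟩
      have hn0 : (0 : ℝ) < n := lt_of_lt_of_le (by positivity) hn1
      have hy0 : 0 < y := by rw [hy]; positivity
      have hX0 : 0 < X := by rw [hX]; positivity
      have hXy : κ * X ≤ y := by
        rw [hX, hy, ← mul_div_assoc]
        exact div_le_div_of_nonneg_right hn1 hL0.le
      have k1 := hb1 0 n (Nat.zero_le _) hn2
      have k2 := hx3 N (by omega) c (mem_Icc.2 ⟨by omega, hcC.trans hC2⟩) 0 n (Nat.zero_le _) hn2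
      have k3 := hx5 N (by omega) c n hc3 (by omega) hn1 hn2
      rw [mul_zero, add_zero, ← hL, ← hy] at k3
      have k3' : |LL c n - y| ≤ η0 / 8 * y := k3
      rw [← hL, Nat.cast_zero, sub_zero, ← hX] at k2
      have e2 : (n : ℝ) / (2 * L) = y / 2 := by
        rw [hy]
        field_simp
      rw [e2] at k2
      have e3 : ∀ S : ℝ, 2 * S * 1 * (N : ℝ) / L = 2 * S * 1 * X := by
        intro S
        rw [hX]
        ring
      rw [gcd_val, heps, ← hL, e3] at k1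
      have hfe := filt_eq c n
      have k1' := k1
      have hPi : (((Ioc 0 n).filter (fun x : ℕ => (fv 1 ((1 : ℕ) : ℤ) (c : ℤ) x).toNat.Prime)).card : ℝ) =
          (((Icc 1 n).filter (fun x : ℕ => (x ^ 2 + x + c).Prime)).card : ℝ) := by
        exact congrArg (fun s : Finset ℕ => (s.card : ℝ)) hfe
      rw [hPi] at k1'
      obtain ⟨ac1, ac2⟩ := Args_cmp c n
      obtain ⟨r1, r2⟩ := real_low hη00 hη0b hκ hh hS0 hy0 hX0 hXy (k1'.trans ac1) k2 k3'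
      refine ⟨r2 η hη0a, fun hC56 => ?_, fun U hU => ?_⟩
      · obtain ⟨S2, hS20, hS2t, hb3⟩ := hE3c hC56 c hcI g3 hadm
        have hS2 : S2 = S := tendsto_nhds_unique hS2t hSt
        have k4 := hb3 0 n (Nat.zero_le _) hn2
        rw [hS2, gcd_val, heps, ← hL, e3, hPi] at k4
        refine real_asy hη00 hη0b hκ hh hS0 hy0 hX0 hXy k4 k2 k3' ac1 ac2 ?_ η hη0a
        have h1 : 1 / (4 * L ^ 13) * (κ * (N / L)) ≤ S * y := by
          rw [← hX]
          exact mul_le_mul hSlow hXy (by positivity) hS0.le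
        have h2 : 1 / (4 * L ^ 13) * (κ * (N / L)) = κ * N / (4 * L ^ 14) := by
          field_simp
        rw [h2] at h1
        have h3 : 32 * L ^ 14 ≤ η0 * κ * N := by
          have h4 : 32 / (η0 * κ) * L ^ 14 = 32 * L ^ 14 / (η0 * κ) := by ring
          rw [h4, div_le_iff₀ (by positivity)] at b9
          have h5 : (N : ℝ) ^ (1 / 5 : ℝ) ≤ N := by
            calc (N : ℝ) ^ (1 / 5 : ℝ) ≤ (N : ℝ) ^ (1 : ℝ) :=
                  Real.rpow_le_rpow_of_exponent_le hN1 (by norm_num)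
              _ = N := Real.rpow_one _
          have h6 : (N : ℝ) ^ (1 / 5 : ℝ) * (η0 * κ) ≤ N * (η0 * κ) :=
            mul_le_mul_of_nonneg_right h5 (by positivity)
          linarith
        have h7 : 1 ≤ η0 / 8 * (κ * N / (4 * L ^ 14)) := by
          rw [← mul_div_assoc, le_div_iff₀ (by positivity)]
          nlinarith
        exact h7.trans (mul_le_mul_of_nonneg_left h1 (by positivity))
      · have hone := hx6 N (by omega) c ho S (by rw [← hL]; exact hSlow) (by rw [← hz]; exact hVz)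
          n hn1 hn2 (by rw [← hL, ← hy]; exact r1) U hU
        refine hone.trans ?_
        exact mul_le_mul_of_nonneg_right hη0a (Nat.cast_nonneg _)

end Pool.Agent.P8H13.QF
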